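import Pool.Agent.W184.NV.Defs

set_option autoImplicit false

/-!
NV-RIGHT and NV-SEG: bounds for the polynomials `GG n θ`.
-/

namespace Pool.Agent.W253.NV

open Pool.Agent.W184.NV Filter Topology

/-! ### Elementary sums -/

theorem geo (S : Finset ℕ) (f : ℕ → ℕ) (hinj : Set.InjOn f S) :
    ∑ j ∈ S, (1 / 2 : ℝ) ^ (f j) ≤ 2 := by
  rw [← Finset.sum_image (f := fun m => (1 / 2 : ℝ) ^ m) hinj]
  refine le_trans ?_ (le_of_eq tsum_geometric_two)
  exact summable_geometric_two.sum_le_tsum _ fun i _ => by positivity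

theorem exp_neg_nat_le (m : ℕ) : Real.exp (-(m : ℝ)) ≤ (1 / 2) ^ m := by
  have h1 : Real.exp (-1) ≤ 1 / 2 := by
    rw [Real.exp_neg, one_div]
    apply inv_anti₀ (by norm_num)
    have := Real.add_one_le_exp (1 : ℝ)
    linarith
  have h2 : Real.exp (-(m : ℝ)) = Real.exp (-1) ^ m := by
    rw [← Real.exp_nat_mul]
    congr 1
    ring
  rw [h2]
  exact pow_le_pow_left₀ (Real.exp_pos _).le h1 m

theorem sum_exp (J : Finset ℕ) (x : ℝ) : ∑ j ∈ J, Real.exp (-|(j : ℝ) + x|) ≤ 4 := by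
  classical
  rw [← Finset.sum_filter_add_sum_filter_not J (fun j : ℕ => 0 ≤ (j : ℝ) + x)]
  have h1 : ∑ j ∈ J.filter (fun j : ℕ => 0 ≤ (j : ℝ) + x), Real.exp (-|(j : ℝ) + x|) ≤ 2 := by
    refine le_trans (Finset.sum_le_sum fun j hj => ?_) (geo _ (fun j => j - ⌈-x⌉₊) ?_)
    · rw [Finset.mem_filter] at hj
      have h2 : ⌈-x⌉₊ ≤ j := Nat.ceil_le.2 (by linarith [hj.2])
      have h3 : -x ≤ ⌈-x⌉₊ := Nat.le_ceil _
      refine le_trans ?_ (exp_neg_nat_le _)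
      rw [Real.exp_le_exp, abs_of_nonneg hj.2, Nat.cast_sub h2]
      linarith
    · intro a ha b hb hab
      rw [Finset.mem_coe, Finset.mem_filter] at ha hb
      have h2 : ⌈-x⌉₊ ≤ a := Nat.ceil_le.2 (by linarith [ha.2])
      have h3 : ⌈-x⌉₊ ≤ b := Nat.ceil_le.2 (by linarith [hb.2])
      simp only at hab
      omega
  have h2 : ∑ j ∈ J.filter (fun j : ℕ => ¬ 0 ≤ (j : ℝ) + x), Real.exp (-|(j : ℝ) + x|) ≤ 2 := by
    refine le_trans (Finset.sum_le_sum fun j hj => ?_) (geo _ (fun j => ⌊-x⌋₊ - j) ?_)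
    · rw [Finset.mem_filter, not_le] at hj
      have h2 : j ≤ ⌊-x⌋₊ := Nat.le_floor (by linarith [hj.2])
      have h0 : 0 ≤ -x := by
        have : (0 : ℝ) ≤ j := Nat.cast_nonneg _
        linarith [hj.2]
      have h3 : (⌊-x⌋₊ : ℝ) ≤ -x := Nat.floor_le h0
      refine le_trans ?_ (exp_neg_nat_le _)
      rw [Real.exp_le_exp, abs_of_neg hj.2, Nat.cast_sub h2]
      linarith
    · intro a ha b hb hab
      rw [Finset.mem_coe, Finset.mem_filter, not_le] at ha hb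
      have h2 : a ≤ ⌊-x⌋₊ := Nat.le_floor (by linarith [ha.2])
      have h3 : b ≤ ⌊-x⌋₊ := Nat.le_floor (by linarith [hb.2])
      simp only at hab
      omega
  linarith

/-! ### Expansion of the polynomials -/

/-- evaluation as a homomorphism -/
noncomputable def DVh (s : ℂ) : (ℕ →₀ ℂ) →+ ℂ where
  toFun g := DV g s
  map_zero' := by simp [DV]
  map_add' g h := by
    unfold DV
    rw [Finsupp.sum_add_index']
    · intro a; simp
    · intro a b c; ring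

theorem DV_single (n : ℕ) (a : ℂ) (s : ℂ) : DV (Finsupp.single n a) s = a * (n : ℂ) ^ (-s) := by
  unfold DV
  rw [Finsupp.sum_single_index]
  simp

/-- the argument of the window -/
noncomputable def uu (n : ℕ) (θ : ℝ) (j : ℕ) (D : Finset ℕ) : ℝ :=
  j + Real.log (∏ p ∈ D, (p : ℝ)) - 2 * n - θ

theorem DV_GG (n : ℕ) (θ : ℝ) (s : ℂ) : DV (GG n θ) s =
    ∑ j ∈ Finset.Icc n (2 * n), ∑ q ∈ Pm j (j + 1), ∑ D ∈ (Sm n).powerset,
      ((ww (uu n θ j D) : ℝ) : ℂ) * ((q * ∏ p ∈ D, p : ℕ) : ℂ) ^ (-s) := by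
  change DVh s (GG n θ) = _
  unfold GG
  rw [map_sum]
  refine Finset.sum_congr rfl fun j _ => ?_
  rw [map_sum]
  refine Finset.sum_congr rfl fun q _ => ?_
  rw [map_sum]
  refine Finset.sum_congr rfl fun D _ => ?_
  change DV _ s = _
  rw [DV_single]
  rfl

theorem mem_Sm {n p : ℕ} (h : p ∈ Sm n) : p.Prime := by
  unfold Sm at h
  rw [Finset.mem_filter] at h
  exact h.2

theorem prod_pos' {n : ℕ} {D : Finset ℕ} (hD : D ∈ (Sm n).powerset) : 0 < ∏ p ∈ D, p :=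
  Finset.prod_pos fun p hp => (mem_Sm (Finset.mem_powerset.1 hD hp)).pos

theorem mem_Pm {a b q : ℕ} (h : q ∈ Pm a b) : 0 < q ∧ Real.exp a < q ∧ (q : ℝ) ≤ Real.exp b := by
  unfold Pm at h
  rw [Finset.mem_filter, Finset.mem_Icc] at h
  exact ⟨h.2.1.pos, h.2.2, (Nat.le_floor_iff (Real.exp_pos _).le).1 h.1.2⟩

theorem ww_pos (x : ℝ) : 0 < ww x := Real.exp_pos _

/-! ### The upper bound -/

theorem upper {C : ℝ} (hC : 1 ≤ C) (hZ : ∀ n : ℕ, 1 ≤ n → ZZ (Sm n) ≤ C * n)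
    (hcard : ∀ j : ℕ, 1 ≤ j → ((Pm j (j + 1)).card : ℝ) ≤ C * Real.exp j / j)
    {n : ℕ} (hn : 1 ≤ n) {θ σ K : ℝ} (hθ1 : θ ≤ 1) (hσ0 : 1 / 2 ≤ σ) (hσ1 : σ ≤ 1)
    (h : ℝ → ℝ) (hh0 : ∀ u, 0 ≤ h u)
    (hK : ∀ u, Real.exp ((1 / 2 - σ) * u - u ^ 2 / 2) * h u ≤ K * Real.exp (-|u|)) :
    ∑ j ∈ Finset.Icc n (2 * n), ∑ q ∈ Pm j (j + 1), ∑ D ∈ (Sm n).powerset,
      ((q * ∏ p ∈ D, p : ℕ) : ℝ) ^ (-σ) * (ww (uu n θ j D) * h (uu n θ j D)) ≤
      4 * K * C ^ 2 * Real.exp ((1 - σ) * (2 * n + 1)) := by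
  have hn0 : (0 : ℝ) < n := by exact_mod_cast hn
  have hK0 : 0 ≤ K := by
    have h1 := hK 0
    have h2 : 0 ≤ Real.exp ((1 / 2 - σ) * 0 - 0 ^ 2 / 2) * h 0 := mul_nonneg (Real.exp_pos _).le (hh0 0)
    have h3 : Real.exp (-|(0 : ℝ)|) = 1 := by simp
    rw [h3, mul_one] at h1
    linarith
  set E := Real.exp ((1 - σ) * (2 * n + 1)) with hE
  -- one term
  have key : ∀ j ∈ Finset.Icc n (2 * n), ∀ D ∈ (Sm n).powerset, ∑ q ∈ Pm j (j + 1),
      ((q * ∏ p ∈ D, p : ℕ) : ℝ) ^ (-σ) * (ww (uu n θ j D) * h (uu n θ j D)) ≤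
      (C / n * E * K) * ((∏ p ∈ D, 1 / (p : ℝ)) * Real.exp (-|uu n θ j D|)) := by
    intro j hj D hD
    rw [Finset.mem_Icc] at hj
    have hj1 : 1 ≤ j := hn.trans hj.1
    have hj0 : (0 : ℝ) < j := by exact_mod_cast hj1
    have hjn : (n : ℝ) ≤ j := by exact_mod_cast hj.1
    have hd0 : (0 : ℝ) < ∏ p ∈ D, (p : ℝ) := by
      have := prod_pos' hD
      rw [← Nat.cast_prod]
      exact_mod_cast this
    set d := ∏ p ∈ D, (p : ℝ) with hd
    set u := uu n θ j D with hu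
    have hW : 0 ≤ ww u * h u := mul_nonneg (ww_pos _).le (hh0 _)
    have h1 : ∀ q ∈ Pm j (j + 1), ((q * ∏ p ∈ D, p : ℕ) : ℝ) ^ (-σ) * (ww u * h u) ≤
        Real.exp (-(j * σ)) * d ^ (-σ) * (ww u * h u) := by
      intro q hq
      obtain ⟨hq0, hq1, _⟩ := mem_Pm hq
      have hq0' : (0 : ℝ) < q := by exact_mod_cast hq0
      refine mul_le_mul_of_nonneg_right ?_ hW
      rw [Nat.cast_mul, Nat.cast_prod, ← hd, Real.mul_rpow hq0'.le hd0.le]
      refine mul_le_mul_of_nonneg_right ?_ (Real.rpow_nonneg hd0.le _)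
      have h2 : Real.exp (-(j * σ)) = Real.exp j ^ (-σ) := by
        rw [← Real.exp_mul]
        congr 1
        ring
      rw [h2]
      exact Real.rpow_le_rpow_of_nonpos (Real.exp_pos _) hq1.le (by linarith)
    refine (Finset.sum_le_sum h1).trans ?_
    rw [Finset.sum_const, nsmul_eq_mul]
    have h2 := hcard j hj1
    have h3 : 0 ≤ Real.exp (-(j * σ)) * d ^ (-σ) * (ww u * h u) :=
      mul_nonneg (mul_nonneg (Real.exp_pos _).le (Real.rpow_nonneg hd0.le _)) hW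
    refine (mul_le_mul_of_nonneg_right h2 h3).trans ?_
    have h4 : C * Real.exp j / j ≤ C / n * Real.exp j := by
      rw [div_mul_eq_mul_div]
      exact div_le_div_of_nonneg_left (by positivity) hn0 hjn
    refine (mul_le_mul_of_nonneg_right h4 h3).trans ?_
    -- the identity of exponents
    have h5 : Real.exp j * (Real.exp (-(j * σ)) * d ^ (-σ) * (ww u * h u)) =
        (1 / d) * Real.exp ((1 - σ) * (2 * n + θ)) *
          (Real.exp ((1 / 2 - σ) * u - u ^ 2 / 2) * h u) := by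
      have e1 : d ^ (-σ) = Real.exp (-(Real.log d * σ)) := by
        rw [Real.rpow_def_of_pos hd0]
        congr 1
        ring
      have e2 : 1 / d = Real.exp (-Real.log d) := by
        rw [Real.exp_neg, Real.exp_log hd0, one_div]
      have e3 : u = j + Real.log d - 2 * n - θ := by rw [hu, uu, ← hd]
      have e4 : ww u = Real.exp (-u ^ 2 / 2 - u / 2) := rfl
      rw [e1, e2, e4]
      have e5 : Real.exp j * (Real.exp (-(j * σ)) * Real.exp (-(Real.log d * σ)) *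
          (Real.exp (-u ^ 2 / 2 - u / 2) * h u)) = Real.exp (j + (-(j * σ)) +
            (-(Real.log d * σ)) + (-u ^ 2 / 2 - u / 2)) * h u := by
        rw [Real.exp_add, Real.exp_add, Real.exp_add]
        ring
      have e6 : Real.exp (-Real.log d) * Real.exp ((1 - σ) * (2 * n + θ)) *
          (Real.exp ((1 / 2 - σ) * u - u ^ 2 / 2) * h u) = Real.exp (-Real.log d +
            (1 - σ) * (2 * n + θ) + ((1 / 2 - σ) * u - u ^ 2 / 2)) * h u := by
        rw [Real.exp_add, Real.exp_add]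
        ring
      rw [e5, e6]
      congr 2
      have e7 : θ = j + Real.log d - 2 * n - u := by rw [e3]; ring
      rw [e7]
      ring
    have h6 : Real.exp ((1 - σ) * (2 * n + θ)) ≤ E := by
      rw [hE, Real.exp_le_exp]
      exact mul_le_mul_of_nonneg_left (by linarith) (by linarith)
    have h7 : (∏ p ∈ D, 1 / (p : ℝ)) = 1 / d := by
      rw [hd, Finset.prod_div_distrib, Finset.prod_const_one]
    calc C / n * Real.exp j * (Real.exp (-(j * σ)) * d ^ (-σ) * (ww u * h u)) =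
        C / n * ((1 / d) * Real.exp ((1 - σ) * (2 * n + θ)) *
          (Real.exp ((1 / 2 - σ) * u - u ^ 2 / 2) * h u)) := by rw [← h5]; ring
      _ ≤ C / n * ((1 / d) * E * (K * Real.exp (-|u|))) := by
          refine mul_le_mul_of_nonneg_left ?_ (by positivity)
          refine mul_le_mul (mul_le_mul_of_nonneg_left h6 (by positivity)) (hK u)
            (mul_nonneg (Real.exp_pos _).le (hh0 _)) (by positivity)
      _ = _ := by rw [h7]; ring
  have hprod : ∀ D ∈ (Sm n).powerset, 0 ≤ ∏ p ∈ D, 1 / (p : ℝ) := fun D _ =>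
    Finset.prod_nonneg fun _ _ => by positivity
  calc ∑ j ∈ Finset.Icc n (2 * n), ∑ q ∈ Pm j (j + 1), ∑ D ∈ (Sm n).powerset,
      ((q * ∏ p ∈ D, p : ℕ) : ℝ) ^ (-σ) * (ww (uu n θ j D) * h (uu n θ j D)) =
      ∑ D ∈ (Sm n).powerset, ∑ j ∈ Finset.Icc n (2 * n), ∑ q ∈ Pm j (j + 1),
      ((q * ∏ p ∈ D, p : ℕ) : ℝ) ^ (-σ) * (ww (uu n θ j D) * h (uu n θ j D)) := by
        rw [Finset.sum_comm]
        refine Finset.sum_congr rfl fun j _ => ?_
        rw [Finset.sum_comm]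
    _ ≤ ∑ D ∈ (Sm n).powerset, ∑ j ∈ Finset.Icc n (2 * n),
        (C / n * E * K) * ((∏ p ∈ D, 1 / (p : ℝ)) * Real.exp (-|uu n θ j D|)) :=
        Finset.sum_le_sum fun D hD => Finset.sum_le_sum fun j hj => key j hj D hD
    _ ≤ ∑ D ∈ (Sm n).powerset, (C / n * E * K) * ((∏ p ∈ D, 1 / (p : ℝ)) * 4) := by
        refine Finset.sum_le_sum fun D hD => ?_
        rw [← Finset.mul_sum, ← Finset.mul_sum]
        refine mul_le_mul_of_nonneg_left (mul_le_mul_of_nonneg_left ?_ (hprod D hD)) (by positivity)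
        have h1 := sum_exp (Finset.Icc n (2 * n)) (Real.log (∏ p ∈ D, (p : ℝ)) - 2 * n - θ)
        refine le_trans (le_of_eq ?_) h1
        refine Finset.sum_congr rfl fun j _ => ?_
        unfold uu
        congr 3
        ring
    _ = (C / n * E * K) * 4 * ZZ (Sm n) := by
        unfold ZZ
        rw [Finset.prod_one_add, ← Finset.mul_sum, ← Finset.sum_mul]
        ring
    _ ≤ (C / n * E * K) * 4 * (C * n) := mul_le_mul_of_nonneg_left (hZ n hn) (by positivity)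
    _ = 4 * K * C ^ 2 * E := by
        field_simp

theorem right : S_NT → S_Right := by
  rintro ⟨C, hC, hZ, _, _, hcard, _⟩ σ₁ ε hσ₁ hε
  set σ := min σ₁ 1 with hσ
  have hσ0 : 1 / 2 < σ := lt_min hσ₁ (by norm_num)
  have hσ1 : σ ≤ 1 := min_le_right _ _
  have hσσ : σ ≤ σ₁ := min_le_left _ _
  set K := Real.exp (9 / 8) with hK
  have hKu : ∀ u, Real.exp ((1 / 2 - σ) * u - u ^ 2 / 2) * 1 ≤ K * Real.exp (-|u|) := by
    intro u
    rw [mul_one, hK, ← Real.exp_add, Real.exp_le_exp]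
    have h1 : (1 / 2 - σ) * u ≤ 1 / 2 * |u| := by
      refine (le_abs_self _).trans ?_
      rw [abs_mul]
      refine mul_le_mul_of_nonneg_right ?_ (abs_nonneg _)
      rw [abs_le]
      constructor <;> linarith
    have h2 : u ^ 2 = |u| ^ 2 := (sq_abs u).symm
    rw [h2]
    nlinarith [sq_nonneg (|u| - 3 / 2)]
  -- the limit
  have hlim : Tendsto (fun n : ℕ => 4 * K * C ^ 2 * Real.exp (1 - σ) *
      Real.exp (-(2 * σ - 1) * n)) atTop (𝓝 0) := by
    have h1 : Tendsto (fun n : ℕ => -(2 * σ - 1) * (n : ℝ)) atTop atBot :=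
      Tendsto.const_mul_atTop_of_neg (by linarith) tendsto_natCast_atTop_atTop
    have h2 := (Real.tendsto_exp_atBot.comp h1).const_mul (4 * K * C ^ 2 * Real.exp (1 - σ))
    rw [mul_zero] at h2
    exact h2
  filter_upwards [hlim.eventually (gt_mem_nhds hε), eventually_ge_atTop 1] with n hn hn1
  intro θ hθ0 hθ1 s hs
  rw [DV_GG]
  have h1 : ‖∑ j ∈ Finset.Icc n (2 * n), ∑ q ∈ Pm j (j + 1), ∑ D ∈ (Sm n).powerset,
      ((ww (uu n θ j D) : ℝ) : ℂ) * ((q * ∏ p ∈ D, p : ℕ) : ℂ) ^ (-s)‖ ≤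
      ∑ j ∈ Finset.Icc n (2 * n), ∑ q ∈ Pm j (j + 1), ∑ D ∈ (Sm n).powerset,
      ((q * ∏ p ∈ D, p : ℕ) : ℝ) ^ (-σ) * (ww (uu n θ j D) * 1) := by
    refine (norm_sum_le _ _).trans (Finset.sum_le_sum fun j hj => ?_)
    refine (norm_sum_le _ _).trans (Finset.sum_le_sum fun q hq => ?_)
    refine (norm_sum_le _ _).trans (Finset.sum_le_sum fun D hD => ?_)
    have hpos : 0 < q * ∏ p ∈ D, p := Nat.mul_pos (mem_Pm hq).1 (prod_pos' hD)
    rw [norm_mul, Complex.norm_real, Real.norm_eq_abs, abs_of_pos (ww_pos _),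
      Complex.norm_natCast_cpow_of_pos hpos, mul_comm, mul_one]
    refine mul_le_mul_of_nonneg_right ?_ (ww_pos _).le
    refine Real.rpow_le_rpow_of_exponent_le ?_ ?_
    · exact_mod_cast hpos
    · rw [Complex.neg_re]
      linarith
  refine h1.trans ((upper hC hZ hcard hn1 hθ1 hσ0.le hσ1 (fun _ => 1) (fun _ => zero_le_one)
    hKu).trans ?_)
  have h2 : Real.exp ((1 - σ) * (2 * n + 1)) = Real.exp (1 - σ) * Real.exp (-(2 * σ - 1) * n) *
      Real.exp n := by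
    rw [← Real.exp_add, ← Real.exp_add]
    congr 1
    ring
  rw [h2]
  have h3 : 4 * K * C ^ 2 * (Real.exp (1 - σ) * Real.exp (-(2 * σ - 1) * n) * Real.exp n) =
      (4 * K * C ^ 2 * Real.exp (1 - σ) * Real.exp (-(2 * σ - 1) * n)) * Real.exp n := by ring
  rw [h3]
  exact mul_le_mul_of_nonneg_right hn.le (Real.exp_pos _).le

/-! ### The lower bound -/

open Classical in
/-- the small squarefree numbers -/
noncomputable def SS (n : ℕ) : Finset (Finset ℕ) :=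
  (Sm n).powerset.filter fun D => ∏ p ∈ D, p ≤ ⌊Real.exp ((n : ℝ) - 1)⌋₊

theorem sum_SS (n : ℕ) : ((n : ℝ) - 1) / 2 ≤ ∑ D ∈ SS n, 1 / (∏ p ∈ D, (p : ℝ)) := by
  classical
  set N := ⌊Real.exp ((n : ℝ) - 1)⌋₊ with hN
  have h1 : (n : ℝ) - 1 ≤ ∑ m ∈ Finset.Icc 1 N, ((m : ℝ))⁻¹ := by
    have h2 := log_add_one_le_harmonic N
    rw [harmonic_eq_sum_Icc] at h2
    push_cast at h2
    refine le_trans ?_ h2
    rw [Real.le_log_iff_exp_le (by positivity)]
    exact (Nat.lt_floor_add_one _).le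
  have h2 : ∀ m : ℕ, ∃ F : Finset ℕ × ℕ, m ∈ Finset.Icc 1 N →
      F ∈ SS n ×ˢ Finset.Ioo 0 (N + 1) ∧ F.2 ^ 2 * ∏ p ∈ F.1, p = m := by
    intro m
    by_cases hm : m ∈ Finset.Icc 1 N
    · rw [Finset.mem_Icc] at hm
      obtain ⟨a, b, ha, hb, hab, hsq⟩ := Nat.sq_mul_squarefree_of_pos (n := m) (by omega)
      have ham : a ≤ m := by
        rw [← hab]
        exact Nat.le_mul_of_pos_left _ (by positivity)
      have hbm : b ≤ m := by
        rw [← hab]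
        calc b ≤ b ^ 2 := Nat.le_self_pow (by norm_num) b
          _ ≤ b ^ 2 * a := Nat.le_mul_of_pos_right _ ha
      have hpr := Nat.prod_primeFactors_of_squarefree hsq
      refine ⟨(a.primeFactors, b), fun _ => ⟨?_, by rw [hpr]; exact hab⟩⟩
      rw [Finset.mem_product, Finset.mem_Ioo]
      refine ⟨?_, hb, by omega⟩
      unfold SS
      rw [Finset.mem_filter, Finset.mem_powerset]
      refine ⟨?_, by rw [hpr]; omega⟩
      intro p hp
      have hpp := Nat.prime_of_mem_primeFactors hp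
      have hpa := Nat.le_of_dvd ha (Nat.dvd_of_mem_primeFactors hp)
      unfold Sm
      rw [Finset.mem_filter, Finset.mem_Icc]
      refine ⟨⟨hpp.pos, ?_⟩, hpp⟩
      have hle : N ≤ ⌊Real.exp n⌋₊ := Nat.floor_le_floor (Real.exp_le_exp.2 (by linarith))
      omega
    · exact ⟨(∅, 0), fun h => absurd h hm⟩
  choose F hF using h2
  have h3 : ∑ m ∈ Finset.Icc 1 N, ((m : ℝ))⁻¹ =
      ∑ m ∈ Finset.Icc 1 N, (1 / (∏ p ∈ (F m).1, (p : ℝ))) * (((F m).2 : ℝ) ^ 2)⁻¹ := by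
    refine Finset.sum_congr rfl fun m hm => ?_
    have := (hF m hm).2
    conv_lhs => rw [← this]
    push_cast
    rw [mul_inv, mul_comm, one_div]
  have hinj : Set.InjOn F (Finset.Icc 1 N : Finset ℕ) := by
    intro a ha b hb hab
    rw [← (hF a ha).2, hab, (hF b hb).2]
  have h4 : ∑ m ∈ Finset.Icc 1 N, (1 / (∏ p ∈ (F m).1, (p : ℝ))) * (((F m).2 : ℝ) ^ 2)⁻¹ ≤
      ∑ x ∈ SS n ×ˢ Finset.Ioo 0 (N + 1), (1 / (∏ p ∈ x.1, (p : ℝ))) * ((x.2 : ℝ) ^ 2)⁻¹ := by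
    rw [← Finset.sum_image (f := fun x : Finset ℕ × ℕ =>
      (1 / (∏ p ∈ x.1, (p : ℝ))) * ((x.2 : ℝ) ^ 2)⁻¹) hinj]
    refine Finset.sum_le_sum_of_subset_of_nonneg ?_ ?_
    · intro x hx
      rw [Finset.mem_image] at hx
      obtain ⟨m, hm, rfl⟩ := hx
      exact (hF m hm).1
    · intro x _ _
      have : (0 : ℝ) ≤ ∏ p ∈ x.1, (p : ℝ) := Finset.prod_nonneg fun _ _ => by positivity
      positivity
  have h5 : ∑ x ∈ SS n ×ˢ Finset.Ioo 0 (N + 1), (1 / (∏ p ∈ x.1, (p : ℝ))) * ((x.2 : ℝ) ^ 2)⁻¹ =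
      (∑ D ∈ SS n, 1 / (∏ p ∈ D, (p : ℝ))) * ∑ k ∈ Finset.Ioo 0 (N + 1), ((k : ℝ) ^ 2)⁻¹ := by
    rw [Finset.sum_product, Finset.sum_mul]
    refine Finset.sum_congr rfl fun D _ => ?_
    rw [Finset.mul_sum]
  have h6 : ∑ k ∈ Finset.Ioo 0 (N + 1), ((k : ℝ) ^ 2)⁻¹ ≤ 2 := by
    have := sum_Ioo_inv_sq_le (α := ℝ) 0 (N + 1)
    refine this.trans ?_
    norm_num
  have h7 : 0 ≤ ∑ D ∈ SS n, 1 / (∏ p ∈ D, (p : ℝ)) := by
    refine Finset.sum_nonneg fun D _ => ?_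
    have : (0 : ℝ) ≤ ∏ p ∈ D, (p : ℝ) := Finset.prod_nonneg fun _ _ => by positivity
    positivity
  have h8 := mul_le_mul_of_nonneg_left h6 h7
  linarith

theorem lower_one {C : ℝ} (hC : 1 ≤ C) {j₀ : ℕ}
    (hcard : ∀ j : ℕ, j₀ ≤ j → Real.exp j / (C * j) ≤ (Pm j (j + 1)).card)
    {n : ℕ} (hn : 1 ≤ n) (hnj : j₀ ≤ n) {θ : ℝ} (hθ0 : 0 ≤ θ) (hθ1 : θ ≤ 1)
    {D : Finset ℕ} (hD : D ∈ SS n) :
    Real.exp ((n : ℝ) - 1) / (2 * C * n) * (1 / ∏ p ∈ D, (p : ℝ)) ≤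
      ∑ j ∈ Finset.Icc n (2 * n), ∑ q ∈ Pm j (j + 1),
        ((q * ∏ p ∈ D, p : ℕ) : ℝ) ^ (-(1 / 2) : ℝ) * (ww (uu n θ j D) * 1) := by
  classical
  unfold SS at hD
  rw [Finset.mem_filter] at hD
  obtain ⟨hD, hDN⟩ := hD
  have hdn := prod_pos' hD
  have hd1 : (1 : ℝ) ≤ ∏ p ∈ D, (p : ℝ) := by
    rw [← Nat.cast_prod]
    exact_mod_cast hdn
  have hdN : ∏ p ∈ D, (p : ℝ) ≤ Real.exp ((n : ℝ) - 1) := by
    rw [← Nat.cast_prod]
    exact (Nat.le_floor_iff (Real.exp_pos _).le).1 hDN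
  set d := ∏ p ∈ D, (p : ℝ) with hd
  have hd0 : 0 < d := by linarith
  have hl0 : 0 ≤ Real.log d := Real.log_nonneg hd1
  have hl1 : Real.log d ≤ n - 1 := by
    rw [Real.log_le_iff_le_exp hd0]
    exact hdN
  set x := 2 * n + θ - Real.log d with hx
  have hn0 : (1 : ℝ) ≤ n := by exact_mod_cast hn
  have hx0 : (n : ℝ) + 1 ≤ x := by linarith
  have hx1 : x ≤ 2 * n + 1 := by linarith
  have hc1 : x ≤ ⌈x⌉₊ := Nat.le_ceil x
  have hc2 : (⌈x⌉₊ : ℝ) < x + 1 := Nat.ceil_lt_add_one (by linarith)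
  have hc3 : ⌈x⌉₊ ≤ 2 * n + 1 := Nat.ceil_le.2 (by push_cast; exact hx1)
  have hc4 : n + 1 ≤ ⌈x⌉₊ := by
    have : ((n + 1 : ℕ) : ℝ) ≤ ⌈x⌉₊ := by push_cast; linarith
    exact_mod_cast this
  obtain ⟨j, hj⟩ : ∃ j : ℕ, ⌈x⌉₊ = j + 1 := ⟨⌈x⌉₊ - 1, by omega⟩
  rw [hj] at hc1 hc2 hc3 hc4
  push_cast at hc1 hc2
  have hjI : j ∈ Finset.Icc n (2 * n) := by
    rw [Finset.mem_Icc]
    omega
  have hu : uu n θ j D = j - x := by
    rw [uu, ← hd, hx]
    ring
  have hww : 1 ≤ ww (uu n θ j D) := by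
    unfold ww
    rw [hu]
    apply Real.one_le_exp
    have h1 : 0 ≤ -((j : ℝ) - x) := by linarith
    have h2 : 0 ≤ (j : ℝ) - x + 1 := by linarith
    nlinarith [mul_nonneg h1 h2]
  refine le_trans ?_ (Finset.single_le_sum (f := fun j => ∑ q ∈ Pm j (j + 1),
    ((q * ∏ p ∈ D, p : ℕ) : ℝ) ^ (-(1 / 2) : ℝ) * (ww (uu n θ j D) * 1)) (fun j _ =>
      Finset.sum_nonneg fun q _ => mul_nonneg (Real.rpow_nonneg (Nat.cast_nonneg _) _)
        (mul_nonneg (ww_pos _).le zero_le_one)) hjI)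
  have hj0 : (0 : ℝ) < j := by
    have : 1 ≤ j := by omega
    exact_mod_cast this
  have hj2 : (j : ℝ) ≤ 2 * n := by
    have : j ≤ 2 * n := by omega
    exact_mod_cast this
  -- one prime
  have hq : ∀ q ∈ Pm j (j + 1), Real.exp (-(((j : ℝ) + 1) / 2)) * Real.exp (-(Real.log d / 2)) ≤
      ((q * ∏ p ∈ D, p : ℕ) : ℝ) ^ (-(1 / 2) : ℝ) * (ww (uu n θ j D) * 1) := by
    intro q hq
    obtain ⟨hq0, _, hq2⟩ := mem_Pm hq
    have hq0' : (0 : ℝ) < q := by exact_mod_cast hq0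
    have h1 : Real.exp (-(((j : ℝ) + 1) / 2)) * Real.exp (-(Real.log d / 2)) ≤
        ((q * ∏ p ∈ D, p : ℕ) : ℝ) ^ (-(1 / 2) : ℝ) := by
      rw [Nat.cast_mul, Nat.cast_prod, ← hd, Real.mul_rpow hq0'.le hd0.le]
      have e1 : Real.exp (-(((j : ℝ) + 1) / 2)) ≤ (q : ℝ) ^ (-(1 / 2) : ℝ) := by
        have e2 : Real.exp (-(((j : ℝ) + 1) / 2)) = Real.exp ((j + 1 : ℕ) : ℝ) ^ (-(1 / 2) : ℝ) := by
          rw [← Real.exp_mul]
          congr 1
          push_cast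
          ring
        rw [e2]
        exact Real.rpow_le_rpow_of_nonpos hq0' hq2 (by norm_num)
      have e3 : Real.exp (-(Real.log d / 2)) = d ^ (-(1 / 2) : ℝ) := by
        rw [Real.rpow_def_of_pos hd0]
        congr 1
        ring
      rw [e3]
      exact mul_le_mul_of_nonneg_right e1 (Real.rpow_nonneg hd0.le _)
    refine h1.trans ?_
    rw [mul_one]
    exact le_mul_of_one_le_right (Real.rpow_nonneg (Nat.cast_nonneg _) _) hww
  refine le_trans ?_ (Finset.card_nsmul_le_sum _ _ _ hq)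
  rw [nsmul_eq_mul]
  have hcj := hcard j (by omega)
  have hC0 : 0 < C := by linarith
  have h2 : Real.exp j / (C * (2 * n)) ≤ (Pm j (j + 1)).card := by
    refine le_trans ?_ hcj
    exact div_le_div_of_nonneg_left (Real.exp_pos _).le (by positivity)
      (mul_le_mul_of_nonneg_left hj2 hC0.le)
  refine le_trans ?_ (mul_le_mul_of_nonneg_right h2 (by positivity))
  have h3 : Real.exp j / (C * (2 * n)) * (Real.exp (-(((j : ℝ) + 1) / 2)) *
      Real.exp (-(Real.log d / 2))) = Real.exp ((j : ℝ) - (j + 1) / 2 - Real.log d / 2) /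
        (2 * C * n) := by
    have e1 : Real.exp ((j : ℝ) - (j + 1) / 2 - Real.log d / 2) = Real.exp j *
        (Real.exp (-(((j : ℝ) + 1) / 2)) * Real.exp (-(Real.log d / 2))) := by
      rw [← Real.exp_add, ← Real.exp_add]
      congr 1
      ring
    rw [e1]
    have e2 : C * (2 * (n : ℝ)) = 2 * C * n := by ring
    rw [e2, div_mul_eq_mul_div]
  have h4 : Real.exp ((n : ℝ) - 1) / (2 * C * n) * (1 / d) =
      Real.exp ((n : ℝ) - 1 - Real.log d) / (2 * C * n) := by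
    rw [Real.exp_sub _ (Real.log d), Real.exp_log hd0]
    field_simp
  rw [h3, h4]
  refine div_le_div_of_nonneg_right ?_ (by positivity)
  rw [Real.exp_le_exp]
  linarith

theorem lower {C : ℝ} (hC : 1 ≤ C) {j₀ : ℕ}
    (hcard : ∀ j : ℕ, j₀ ≤ j → Real.exp j / (C * j) ≤ (Pm j (j + 1)).card)
    {n : ℕ} (hn : 2 ≤ n) (hnj : j₀ ≤ n) {θ : ℝ} (hθ0 : 0 ≤ θ) (hθ1 : θ ≤ 1) :
    Real.exp (-1) / (8 * C) * Real.exp n ≤
    ∑ j ∈ Finset.Icc n (2 * n), ∑ q ∈ Pm j (j + 1), ∑ D ∈ (Sm n).powerset,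
      ((q * ∏ p ∈ D, p : ℕ) : ℝ) ^ (-(1 / 2) : ℝ) * (ww (uu n θ j D) * 1) := by
  classical
  have hC0 : 0 < C := by linarith
  have hn0 : (2 : ℝ) ≤ n := by exact_mod_cast hn
  have h0 : ∑ j ∈ Finset.Icc n (2 * n), ∑ q ∈ Pm j (j + 1), ∑ D ∈ (Sm n).powerset,
      ((q * ∏ p ∈ D, p : ℕ) : ℝ) ^ (-(1 / 2) : ℝ) * (ww (uu n θ j D) * 1) =
      ∑ D ∈ (Sm n).powerset, ∑ j ∈ Finset.Icc n (2 * n), ∑ q ∈ Pm j (j + 1),
      ((q * ∏ p ∈ D, p : ℕ) : ℝ) ^ (-(1 / 2) : ℝ) * (ww (uu n θ j D) * 1) := by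
    rw [Finset.sum_comm]
    refine Finset.sum_congr rfl fun j _ => ?_
    rw [Finset.sum_comm]
  rw [h0]
  have h1 : ∑ D ∈ SS n, ∑ j ∈ Finset.Icc n (2 * n), ∑ q ∈ Pm j (j + 1),
      ((q * ∏ p ∈ D, p : ℕ) : ℝ) ^ (-(1 / 2) : ℝ) * (ww (uu n θ j D) * 1) ≤
      ∑ D ∈ (Sm n).powerset, ∑ j ∈ Finset.Icc n (2 * n), ∑ q ∈ Pm j (j + 1),
      ((q * ∏ p ∈ D, p : ℕ) : ℝ) ^ (-(1 / 2) : ℝ) * (ww (uu n θ j D) * 1) := by
    refine Finset.sum_le_sum_of_subset_of_nonneg (Finset.filter_subset _ _) fun D _ _ =>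
      Finset.sum_nonneg fun j _ => Finset.sum_nonneg fun q _ =>
        mul_nonneg (Real.rpow_nonneg (Nat.cast_nonneg _) _)
          (mul_nonneg (ww_pos _).le zero_le_one)
  refine le_trans ?_ h1
  have h2 : ∑ D ∈ SS n, Real.exp ((n : ℝ) - 1) / (2 * C * n) * (1 / ∏ p ∈ D, (p : ℝ)) ≤
      ∑ D ∈ SS n, ∑ j ∈ Finset.Icc n (2 * n), ∑ q ∈ Pm j (j + 1),
      ((q * ∏ p ∈ D, p : ℕ) : ℝ) ^ (-(1 / 2) : ℝ) * (ww (uu n θ j D) * 1) :=
    Finset.sum_le_sum fun D hD => lower_one hC hcard (by omega) hnj hθ0 hθ1 hD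
  refine le_trans ?_ h2
  rw [← Finset.mul_sum]
  refine le_trans ?_ (mul_le_mul_of_nonneg_left (sum_SS n) (by positivity))
  have h3 : Real.exp ((n : ℝ) - 1) = Real.exp (-1) * Real.exp n := by
    rw [← Real.exp_add]
    congr 1
    ring
  rw [h3]
  have h4 : Real.exp (-1) / (8 * C) * Real.exp n = (Real.exp (-1) * Real.exp n) / (2 * C) *
      (1 / 4) := by
    field_simp
    norm_num
  have h5 : Real.exp (-1) * Real.exp n / (2 * C * n) * (((n : ℝ) - 1) / 2) =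
      (Real.exp (-1) * Real.exp n) / (2 * C) * (((n : ℝ) - 1) / (2 * n)) := by
    field_simp
  rw [h4, h5]
  refine mul_le_mul_of_nonneg_left ?_ (by positivity)
  rw [le_div_iff₀ (by positivity)]
  linarith

theorem term_re (m : ℕ) (hm : 0 < m) (t y : ℝ) :
    (Complex.exp ((t * y : ℝ) * Complex.I) * (m : ℂ) ^ (-(1 / 2 + t * Complex.I))).re =
      (m : ℝ) ^ (-(1 / 2) : ℝ) * Real.cos (t * (Real.log m - y)) := by
  have hm0 : (m : ℂ) ≠ 0 := by exact_mod_cast hm.ne'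
  have hm0' : (0 : ℝ) < m := by exact_mod_cast hm
  rw [Complex.cpow_def_of_ne_zero hm0, ← Complex.natCast_log, ← Complex.exp_add]
  have h1 : ((t * y : ℝ) : ℂ) * Complex.I + (Real.log m : ℂ) * -(1 / 2 + t * Complex.I) =
      ((-(Real.log m / 2) : ℝ) : ℂ) + ((-(t * (Real.log m - y)) : ℝ) : ℂ) * Complex.I := by
    push_cast
    ring
  rw [h1, Complex.exp_add, Complex.exp_mul_I, ← Complex.ofReal_exp, ← Complex.ofReal_cos,
    ← Complex.ofReal_sin, Complex.re_ofReal_mul]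
  simp only [Complex.add_re, Complex.ofReal_re, Complex.mul_re, Complex.I_re, mul_zero,
    Complex.ofReal_im, Complex.I_im, mul_one, sub_self, add_zero, Real.cos_neg]
  congr 1
  rw [Real.rpow_def_of_pos hm0']
  congr 1
  ring

theorem seg : S_NT → S_Seg := by
  rintro ⟨C, hC, hZ, _, _, hcard, hcard'⟩
  obtain ⟨j₀, hj₀⟩ := eventually_atTop.1 hcard'
  have hC0 : 0 < C := by linarith
  set K := 2 * Real.exp 3 with hK
  have hKu : ∀ u : ℝ, Real.exp ((1 / 2 - 1 / 2) * u - u ^ 2 / 2) * (|u| + 1) ^ 2 ≤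
      K * Real.exp (-|u|) := by
    intro u
    have h1 : (|u| + 1) ^ 2 ≤ 2 * Real.exp (|u| + 1) := by
      have := Real.quadratic_le_exp_of_nonneg (x := |u| + 1) (by positivity)
      nlinarith [abs_nonneg u]
    calc Real.exp ((1 / 2 - 1 / 2) * u - u ^ 2 / 2) * (|u| + 1) ^ 2 ≤
        Real.exp ((1 / 2 - 1 / 2) * u - u ^ 2 / 2) * (2 * Real.exp (|u| + 1)) :=
          mul_le_mul_of_nonneg_left h1 (Real.exp_pos _).le
      _ = 2 * Real.exp ((1 / 2 - 1 / 2) * u - u ^ 2 / 2 + (|u| + 1)) := by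
          rw [Real.exp_add _ (|u| + 1)]
          ring
      _ ≤ 2 * Real.exp (3 + -|u|) := by
          refine mul_le_mul_of_nonneg_left ?_ (by norm_num)
          rw [Real.exp_le_exp]
          have h2 : u ^ 2 = |u| ^ 2 := (sq_abs u).symm
          rw [h2]
          nlinarith [sq_nonneg (|u| - 2)]
      _ = K * Real.exp (-|u|) := by rw [hK, Real.exp_add]; ring
  set c' := Real.exp (-1) / (8 * C) with hc'
  set C'' := 4 * K * C ^ 2 * Real.exp (1 / 2) with hC''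
  have hc'0 : 0 < c' := by positivity
  have hC''0 : 0 < C'' := by positivity
  refine ⟨min 1 (c' / C''), c' / 2, lt_min one_pos (by positivity), by positivity, ?_⟩
  filter_upwards [eventually_ge_atTop (max 2 j₀)] with n hn
  intro θ t hθ0 hθ1 ht
  have hn2 : 2 ≤ n := (le_max_left _ _).trans hn
  have hnj : j₀ ≤ n := (le_max_right _ _).trans hn
  have hA := lower hC (fun j hj => hj₀ j hj) hn2 hnj hθ0 hθ1
  have hB := upper hC hZ hcard (n := n) (by omega) hθ1 (σ := 1 / 2) le_rfl (by norm_num)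
    (fun u => (|u| + 1) ^ 2) (fun u => by positivity) hKu
  set A := ∑ j ∈ Finset.Icc n (2 * n), ∑ q ∈ Pm j (j + 1), ∑ D ∈ (Sm n).powerset,
      ((q * ∏ p ∈ D, p : ℕ) : ℝ) ^ (-(1 / 2) : ℝ) * (ww (uu n θ j D) * 1) with hAdef
  set B := ∑ j ∈ Finset.Icc n (2 * n), ∑ q ∈ Pm j (j + 1), ∑ D ∈ (Sm n).powerset,
      ((q * ∏ p ∈ D, p : ℕ) : ℝ) ^ (-(1 / 2) : ℝ) * (ww (uu n θ j D) * (|uu n θ j D| + 1) ^ 2)
      with hBdef
  -- the real part
  have hre : A - t ^ 2 / 2 * B ≤ (Complex.exp ((t * (2 * n + θ) : ℝ) * Complex.I) *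
      DV (GG n θ) (1 / 2 + t * Complex.I)).re := by
    rw [DV_GG, hAdef, hBdef]
    simp only [Finset.mul_sum, Complex.re_sum]
    rw [← Finset.sum_sub_distrib]
    refine Finset.sum_le_sum fun j hj => ?_
    rw [← Finset.sum_sub_distrib]
    refine Finset.sum_le_sum fun q hq => ?_
    rw [← Finset.sum_sub_distrib]
    refine Finset.sum_le_sum fun D hD => ?_
    obtain ⟨hq0, hq1, hq2⟩ := mem_Pm hq
    have hq0' : (0 : ℝ) < q := by exact_mod_cast hq0
    have hd0 : (0 : ℝ) < ∏ p ∈ D, (p : ℝ) := by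
      have := prod_pos' hD
      rw [← Nat.cast_prod]
      exact_mod_cast this
    have hpos : 0 < q * ∏ p ∈ D, p := Nat.mul_pos hq0 (prod_pos' hD)
    have h1 : Complex.exp ((t * (2 * n + θ) : ℝ) * Complex.I) *
        (((ww (uu n θ j D) : ℝ) : ℂ) * ((q * ∏ p ∈ D, p : ℕ) : ℂ) ^ (-(1 / 2 + t * Complex.I))) =
        ((ww (uu n θ j D) : ℝ) : ℂ) * (Complex.exp ((t * (2 * n + θ) : ℝ) * Complex.I) *
          ((q * ∏ p ∈ D, p : ℕ) : ℂ) ^ (-(1 / 2 + t * Complex.I))) := by ring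
    rw [h1, Complex.re_ofReal_mul, term_re _ hpos]
    set W := ww (uu n θ j D) with hW
    set m := ((q * ∏ p ∈ D, p : ℕ) : ℝ) with hm
    set r := m ^ (-(1 / 2) : ℝ) with hr
    have hr0 : 0 ≤ r := Real.rpow_nonneg (Nat.cast_nonneg _) _
    have hW0 : 0 < W := ww_pos _
    have hlog : Real.log m - (2 * n + θ) = uu n θ j D + (Real.log q - j) := by
      rw [hm, Nat.cast_mul, Nat.cast_prod, Real.log_mul hq0'.ne' hd0.ne', uu]
      ring
    have hl1 : (j : ℝ) ≤ Real.log q := by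
      rw [Real.le_log_iff_exp_le hq0']
      exact hq1.le
    have hl2 : Real.log q ≤ j + 1 := by
      rw [Real.log_le_iff_le_exp hq0']
      push_cast at hq2
      exact hq2
    have hy : (Real.log m - (2 * n + θ)) ^ 2 ≤ (|uu n θ j D| + 1) ^ 2 := by
      rw [hlog, ← sq_abs]
      refine pow_le_pow_left₀ (abs_nonneg _) ?_ 2
      refine (abs_add_le _ _).trans ?_
      have : |Real.log q - j| ≤ 1 := by
        rw [abs_le]
        constructor <;> linarith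
      linarith
    have hcos := Real.one_sub_sq_div_two_le_cos (x := t * (Real.log m - (2 * n + θ)))
    have h2 : 1 - t ^ 2 / 2 * (|uu n θ j D| + 1) ^ 2 ≤
        Real.cos (t * (Real.log m - (2 * n + θ))) := by
      refine le_trans ?_ hcos
      have h3 : (t * (Real.log m - (2 * n + θ))) ^ 2 / 2 ≤ t ^ 2 / 2 * (|uu n θ j D| + 1) ^ 2 := by
        rw [mul_pow, mul_div_right_comm]
        exact mul_le_mul_of_nonneg_left hy (by positivity)
      linarith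
    have h4 := mul_le_mul_of_nonneg_left h2 (mul_nonneg hW0.le hr0)
    nlinarith
  have hnorm : (Complex.exp ((t * (2 * n + θ) : ℝ) * Complex.I) *
      DV (GG n θ) (1 / 2 + t * Complex.I)).re ≤ ‖DV (GG n θ) (1 / 2 + t * Complex.I)‖ := by
    refine (Complex.re_le_norm _).trans ?_
    rw [norm_mul, Complex.norm_exp_ofReal_mul_I, one_mul]
  refine le_trans ?_ (hre.trans hnorm)
  have ht2 : t ^ 2 ≤ c' / C'' := by
    have h1 : |t| ≤ 1 := ht.trans (min_le_left _ _)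
    have h2 : |t| ≤ c' / C'' := ht.trans (min_le_right _ _)
    rw [← sq_abs]
    nlinarith [abs_nonneg t]
  have hB' : B ≤ C'' * Real.exp n := by
    refine hB.trans (le_of_eq ?_)
    rw [hC'']
    have : Real.exp ((1 - 1 / 2) * (2 * (n : ℝ) + 1)) = Real.exp (1 / 2) * Real.exp n := by
      rw [← Real.exp_add]
      congr 1
      ring
    rw [this]
    ring
  have h5 : t ^ 2 / 2 * B ≤ c' / C'' / 2 * (C'' * Real.exp n) := by
    have hB0 : 0 ≤ B := by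
      rw [hBdef]
      exact Finset.sum_nonneg fun j _ => Finset.sum_nonneg fun q _ => Finset.sum_nonneg fun D _ =>
        mul_nonneg (Real.rpow_nonneg (Nat.cast_nonneg _) _)
          (mul_nonneg (ww_pos _).le (by positivity))
    refine mul_le_mul (by linarith) hB' hB0 (by positivity)
  have h6 : c' / C'' / 2 * (C'' * Real.exp n) = c' / 2 * Real.exp n := by
    field_simp
  rw [h6] at h5
  linarith

end Pool.Agent.W253.NV
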